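import Pool.Agent.Helper30.KP.Main

/-!
# Kobon triangles: arrangements with concurrent lines beat all arrangements without

For every `n = 3 * 2 ^ k + 2`, `k ≥ 2`, there are `n` lines which count at least
`(n - 2) (2 n - 1) / 6` triangles, and this is more than any `n` lines, no three of which are
concurrent, can count.
-/

namespace Pool.Agent.Results.MP_d194fa_co.BeyondSimple

open Pool.Agent.Helper30.KO Pool.Agent.Helper30.KP

theorem result (k n : ℕ) (hk : 2 ≤ k) (hn : n = 3 * 2 ^ k + 2) :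
    ∃ T : ℕ, 6 * T = (n - 2) * (2 * n - 1) ∧
      (∃ L : Finset (Set Plane), L.card = n ∧ (∀ ℓ ∈ L, IsLine ℓ) ∧
        (T : ℕ∞) ≤ {V : Finset Plane | Counted L V}.encard) ∧
      ∀ L : Finset (Set Plane), L.card = n → (∀ ℓ ∈ L, IsLine ℓ) →
        NoThree (L : Set (Set Plane)) → {V : Finset Plane | Counted L V}.encard < (T : ℕ∞) := by
  obtain ⟨κ, rfl⟩ : ∃ κ, k = κ + 1 := ⟨k - 1, by omega⟩
  have h1 : 1 ≤ κ := by omega
  have h2 : n = 6 * 2 ^ κ + 2 := by rw [hn, pow_succ]; ring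
  obtain ⟨L, hL1, hL2, 𝒯, hT1, hT2⟩ := exists_arr κ h1
  have h3 : 6 * (12 * 4 ^ κ + 3 * 2 ^ κ) = (n - 2) * (2 * n - 1) := by
    have e1 : n - 2 = 6 * 2 ^ κ := by omega
    have e2 : 2 * n - 1 = 12 * 2 ^ κ + 3 := by omega
    have e3 : (4 : ℕ) ^ κ = 2 ^ κ * 2 ^ κ := by rw [← mul_pow]; norm_num
    rw [e1, e2, e3]; ring
  refine ⟨12 * 4 ^ κ + 3 * 2 ^ κ, h3, ⟨L, by rw [hL1, h2], hL2, ?_⟩, ?_⟩
  · rw [← hT2, ← Set.encard_coe_eq_coe_finsetCard]
    exact Set.encard_le_encard (fun V hV => hT1 V (Finset.mem_coe.mp hV))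
  · intro L' hc hL' h0
    have hp : 1 ≤ 2 ^ κ := Nat.one_le_two_pow
    have he : Even n := ⟨3 * 2 ^ κ + 1, by rw [h2]; ring⟩
    obtain ⟨hf, hle⟩ := upper_simple he (by omega) L' hL' hc h0
    rw [← hf.cast_ncard_eq]
    have h4 : n * (2 * n - 5) < (n - 2) * (2 * n - 1) := by
      obtain ⟨x, rfl⟩ : ∃ x, n = x + 3 := ⟨n - 3, by omega⟩
      have e1 : 2 * (x + 3) - 5 = 2 * x + 1 := by omega
      have e2 : x + 3 - 2 = x + 1 := by omega
      have e3 : 2 * (x + 3) - 1 = 2 * x + 5 := by omega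
      rw [e1, e2, e3]
      nlinarith
    have h5 : {V : Finset Plane | Counted (L' : Set (Set Plane)) V}.ncard <
        12 * 4 ^ κ + 3 * 2 ^ κ := by omega
    exact_mod_cast h5

end Pool.Agent.Results.MP_d194fa_co.BeyondSimple
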