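import Pool.Agent.Helper30.KO.Simple

/-!
# Kobon triangles: an upper bound for an even number of lines

For even `n`, a family of triangles counted by `n` lines, no two of which share a side with an
endpoint on three or more of the lines, has at most `n (2 n - 5) / 6` members. If no three lines
are concurrent, this is a bound for the number of all counted triangles.
-/

namespace Pool.Agent.Results.MP_d194fa_co.EvenUpperBound

open Pool.Agent.Helper30.KO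

/-- the point `p` lies on at least three lines of `L` -/
def OnThree (L : Set (Set Plane)) (p : Plane) : Prop :=
  ∃ ℓ₁ ∈ L, ∃ ℓ₂ ∈ L, ∃ ℓ₃ ∈ L, ℓ₁ ≠ ℓ₂ ∧ ℓ₁ ≠ ℓ₃ ∧ ℓ₂ ≠ ℓ₃ ∧ p ∈ ℓ₁ ∧ p ∈ ℓ₂ ∧ p ∈ ℓ₃

theorem result (n : ℕ) (hn : Even n) (h4 : 4 ≤ n) (L : Finset (Set Plane))
    (hL : ∀ ℓ ∈ L, IsLine ℓ) (hc : L.card = n) (𝒯 : Finset (Finset Plane))
    (h𝒯 : ∀ V ∈ 𝒯, Counted L V)
    (hd : ∀ V ∈ 𝒯, ∀ W ∈ 𝒯, V ≠ W → ∀ p ∈ V, p ∈ W → ∀ q ∈ V, q ∈ W → p ≠ q → ¬ OnThree L p) :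
    6 * 𝒯.card ≤ n * (2 * n - 5) := by
  apply upper_strong hn h4 L hL hc 𝒯 h𝒯
  intro V hV W hW hVW p hp hp' q hq hq' hpq a ha b hb c hc' n1 n2 n3 r1 r2 r3
  exact hd V hV W hW hVW p hp hp' q hq hq' hpq ⟨a, ha, b, hb, c, hc', n1, n2, n3, r1, r2, r3⟩

end Pool.Agent.Results.MP_d194fa_co.EvenUpperBound
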