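import Pool.Agent.Helper30.KO.Exact

/-!
# Kobon triangles: exact values without three concurrent lines

For every `n = 2 ^ k + 2`, `k ≥ 1`, the largest number of triangles counted by `n` lines, no three
of which are concurrent, is `n (2 n - 5) / 6`.
-/

namespace Pool.Agent.Results.MP_d194fa_co.ExactPowers

open Pool.Agent.Helper30.KO

theorem result (k n : ℕ) (hk : 1 ≤ k) (hn : n = 2 ^ k + 2) :
    ∃ T : ℕ, 6 * T = n * (2 * n - 5) ∧
      IsGreatest {N : ℕ∞ | ∃ L : Finset (Set Plane), L.card = n ∧ (∀ ℓ ∈ L, IsLine ℓ) ∧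
        NoThree (L : Set (Set Plane)) ∧ N = {V : Finset Plane | Counted L V}.encard} (T : ℕ∞) :=
  exact k n hk hn

end Pool.Agent.Results.MP_d194fa_co.ExactPowers
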