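import Pool.Agent.Helper30.KB.Even

/-!
# Kobon triangles: the upper bound for an even number of lines and new exact values

For even `n ≥ 4` any `n` lines (parallel lines and concurrent lines allowed) count at most
`n (3 n - 7) / 9` triangles. For even `n ≤ 16` the integer part of this number is attained.
-/

namespace Pool.Agent.Results.MP_d194fa_co.KobonEven

open Pool.Agent.Helper30.KO

theorem result (n : ℕ) (hn : Even n) (h4 : 4 ≤ n) :
    (∀ L : Finset (Set Plane), L.card = n → (∀ ℓ ∈ L, IsLine ℓ) →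
      {V : Finset Plane | Counted L V}.encard ≤ ((n * (3 * n - 7) / 9 : ℕ) : ℕ∞)) ∧
    (n ≤ 16 → ∃ L : Finset (Set Plane), L.card = n ∧ (∀ ℓ ∈ L, IsLine ℓ) ∧
      {V : Finset Plane | Counted L V}.encard = ((n * (3 * n - 7) / 9 : ℕ) : ℕ∞)) := by
  refine ⟨fun L hc hL => Pool.Agent.Helper30.KB.upper_all hn h4 L hL hc, fun h16 => ?_⟩
  obtain ⟨L, hc, hL, h⟩ := Pool.Agent.Helper30.KB.lower_even hn h4 h16
  exact ⟨L, hc, hL, le_antisymm (Pool.Agent.Helper30.KB.upper_all hn h4 L hL hc) h⟩

end Pool.Agent.Results.MP_d194fa_co.KobonEven
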